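import Mathlib

set_option autoImplicit false

namespace Pool.Agent.H.MP_c59173_co

open Finset DihedralGroup

abbrev D := DihedralGroup 4
abbrev G := Fin 4 → D

def a : D := sr 0
def b : D := sr 1
def ea (i : Fin 4) : G := fun c => if c = i then a else 1
def eb (i : Fin 4) : G := fun c => if c = i then b else 1
def SB : Finset G := Fintype.piFinset fun _ => {1, b}
def SA : Finset G := Fintype.piFinset fun _ => {1, a}
def Q (k : Option (Fin 4)) (c : Fin 4) : Finset D :=
  if some c = k then {a * b, b * a * b, a * b * a, b * a * b * a} else {1, a, b, b * a}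
def U (k : Option (Fin 4)) : Finset G := Fintype.piFinset (Q k)

theorem cSB : SB.card = 16 := by
  rw [SB, Fintype.card_piFinset]; decide
theorem cSA : SA.card = 16 := by
  rw [SA, Fintype.card_piFinset]; decide
theorem cU : ∀ k, (U k).card = 256 := by
  intro k
  rw [U, Fintype.card_piFinset]; revert k; decide

theorem dQ : ∀ k l : Option (Fin 4), k ≠ l → ∃ c, Disjoint (Q k c) (Q l c) := by decide +kernel

theorem dec : ∀ (k : Option (Fin 4)) (c : Fin 4), ∀ x ∈ Q k c, ∃ e ∈ ({1, b} : Finset D),
    ∃ d ∈ ({1, a} : Finset D), x = e * (ea (k.getD 0) c * (eb (k.getD 1) c * d)) := by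
  decide +kernel

theorem lower (S : Finset G)
    (h : ∀ g ∈ SB, ∀ i j, ∀ t ∈ SA, g * (ea i * (eb j * t)) ∈ S) : 1280 ≤ S.card := by
  have h1 : univ.biUnion U ⊆ S := by
    intro g hg
    obtain ⟨k, -, hk⟩ := mem_biUnion.1 hg
    have := fun c => dec k c (g c) (Fintype.mem_piFinset.1 hk c)
    choose e he d hd hx using this
    have : g = e * (ea (k.getD 0) * (eb (k.getD 1) * d)) := funext hx
    rw [this]
    exact h e (Fintype.mem_piFinset.2 he) _ _ d (Fintype.mem_piFinset.2 hd)
  have h2 : (univ.biUnion U).card = 1280 := by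
    rw [card_biUnion]
    · simp [cU]
    · intro k _ l _ hkl
      obtain ⟨c, hc⟩ := dQ k l hkl
      exact Fintype.piFinset_disjoint_of_disjoint _ _ hc
  exact h2 ▸ card_le_card h1

theorem m1 : ∀ j c, ∀ x ∈ ({1, b} : Finset D), x * eb j c ∈ ({1, b} : Finset D) := by
  decide +kernel
theorem m2 : ∀ j c, ∀ x ∈ ({1, a} : Finset D), ea j c * x ∈ ({1, a} : Finset D) := by
  decide +kernel
theorem cm : ∀ i j, i ≠ j → ∀ c, ea i c * eb j c = eb j c * ea i c := by decide +kernel

theorem up1 (S : Finset G) (i : Fin 4) (t : G)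
    (h : ∀ x ∈ S, ∃ g ∈ SB, ∃ j, x = g * (ea i * (eb j * t))) : S.card ≤ 32 := by
  have : S ⊆ SB.image (· * (ea i * t)) ∪ SB.image (· * (ea i * (eb i * t))) := by
    intro x hx
    obtain ⟨g, hg, j, rfl⟩ := h x hx
    by_cases e : i = j
    · subst e; exact mem_union_right _ (mem_image_of_mem _ hg)
    · refine mem_union_left _ (mem_image.2 ⟨g * eb j, Fintype.mem_piFinset.2 fun c =>
        m1 j c _ (Fintype.mem_piFinset.1 hg c), ?_⟩)
      have : ea i * eb j = eb j * ea i := funext (cm i j e)
      rw [← mul_assoc (ea i), this]; simp only [mul_assoc]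
  refine (card_le_card this).trans ((card_union_le _ _).trans ?_)
  have h1 := card_image_le (s := SB) (f := (· * (ea i * t)))
  have h2 := card_image_le (s := SB) (f := (· * (ea i * (eb i * t))))
  have := cSB
  omega

theorem up2 (S : Finset G) (j : Fin 4) (g : G)
    (h : ∀ x ∈ S, ∃ t ∈ SA, ∃ i, x = g * (ea i * (eb j * t))) : S.card ≤ 32 := by
  have : S ⊆ SA.image (g * eb j * ·) ∪ SA.image (g * (ea j * eb j) * ·) := by
    intro x hx
    obtain ⟨t, ht, i, rfl⟩ := h x hx
    by_cases e : i = j
    · subst e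
      exact mem_union_right _ (mem_image.2 ⟨t, ht, by simp only [mul_assoc]⟩)
    · refine mem_union_left _ (mem_image.2 ⟨ea i * t, Fintype.mem_piFinset.2 fun c =>
        m2 i c _ (Fintype.mem_piFinset.1 ht c), ?_⟩)
      have : ea i * eb j = eb j * ea i := funext (cm i j e)
      rw [← mul_assoc (ea i), this]; simp only [mul_assoc]
  refine (card_le_card this).trans ((card_union_le _ _).trans ?_)
  have h1 := card_image_le (s := SA) (f := (g * eb j * ·))
  have h2 := card_image_le (s := SA) (f := (g * (ea j * eb j) * ·))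
  have := cSA
  omega

end Pool.Agent.H.MP_c59173_co
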